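import Mathlib

namespace Pool.Agent.Results.MP_efdca5_co.Decay
open Finset

/-- any two distinct vertices are joined by k pairwise edge-disjoint paths. -/
def EdgeConnected {V : Type} (G : SimpleGraph V) (k : ℕ) : Prop :=
  ∀ u v, u ≠ v → ∃ p : Fin k → G.Walk u v, (∀ i, (p i).IsPath) ∧
    ∀ i j, i ≠ j → (p i).edges.Disjoint (p j).edges

section
variable {V : Type} {G : SimpleGraph V}

lemma cut1 {k : ℕ} (h : EdgeConnected G (k + 1)) (W : Set V) {u v : V} (hu : u ∈ W) (hv : v ∉ W) :
    ∃ a b, a ∈ W ∧ b ∉ W ∧ G.Adj a b := by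
  obtain ⟨p, -, -⟩ := h u v (fun e => hv (e ▸ hu))
  obtain ⟨d, -, h1, h2⟩ := (p 0).exists_boundary_dart W hu hv
  exact ⟨_, _, h1, h2, d.adj⟩

lemma cut2 (h : EdgeConnected G 2) (W : Set V) {u v : V} (hu : u ∈ W) (hv : v ∉ W) :
    ∃ a b a' b', a ∈ W ∧ b ∉ W ∧ G.Adj a b ∧ a' ∈ W ∧ b' ∉ W ∧ G.Adj a' b' ∧
      s(a, b) ≠ s(a', b') := by
  obtain ⟨p, -, hp⟩ := h u v (fun e => hv (e ▸ hu))
  obtain ⟨d, h0, h1, h2⟩ := (p 0).exists_boundary_dart W hu hv
  obtain ⟨d', h0', h1', h2'⟩ := (p 1).exists_boundary_dart W hu hv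
  refine ⟨_, _, _, _, h1, h2, d.adj, h1', h2', d'.adj, fun e => ?_⟩
  have a : d.edge ∈ (p 0).edges := List.mem_map_of_mem h0
  have b : d'.edge ∈ (p 1).edges := List.mem_map_of_mem h0'
  have e' : d.edge = d'.edge := e
  exact hp 0 1 (by decide) a (e' ▸ b)

lemma ch (t : ℕ) : 2 * t ≤ t.choose 2 + 3 ∧ (t ≠ 2 → t ≠ 3 → 2 * t ≤ t.choose 2 + 2) := by
  induction t with
  | zero => simp
  | succ t ih =>
    rw [Nat.choose_succ_succ' t 1, Nat.choose_one_right]
    rcases Nat.lt_or_ge t 4 with h | h
    · interval_cases t <;> simp [Nat.choose]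
    · norm_num
      omega

variable [Fintype V] [DecidableEq V] {α β : Type} [DecidableEq α] [DecidableEq β]
  (col : V → α) (l : V → β) (A : Finset (Sym2 V))

def L (S : Finset α) : Finset β := (univ.filter (fun v => col v ∈ S)).image l

def E (S : Finset α) : Finset (Sym2 V) := A.filter (fun e => ∀ v ∈ e, col v ∈ S)

variable (h1 : ∀ u v, u ≠ v → col u = col v → G.Adj u v)
  (h2 : ∀ u v, G.Adj u v → l u ≠ l v → s(u, v) ∈ A)

include h1 h2 in
lemma clique (j : α) :
    (L col l {j}).card.choose 2 ≤ ((E col A {j}).image (Sym2.map l)).card := by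
  rw [← Sym2.card_image_offDiag]
  apply card_le_card
  intro e he
  obtain ⟨⟨x, y⟩, hxy, rfl⟩ := mem_image.mp he
  obtain ⟨hx, hy, hne⟩ := mem_offDiag.mp hxy
  obtain ⟨u, hu, rfl⟩ := mem_image.mp hx
  obtain ⟨v, hv, rfl⟩ := mem_image.mp hy
  simp only [mem_filter, mem_univ, true_and, mem_singleton] at hu hv
  refine mem_image.mpr ⟨s(u, v), mem_filter.mpr ⟨h2 u v (h1 u v (fun e => hne (by rw [e]))
    (hu.trans hv.symm)) hne, ?_⟩, by simp⟩
  simp [hu, hv]

include h1 h2 in
lemma step (S : Finset α) (j : α) (hj : j ∉ S) (X : Finset (Sym2 V))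
    (hX : ∀ e ∈ X, ∃ a b, e = s(a, b) ∧ col a ∈ S ∧ col b = j ∧ G.Adj a b) (hX2 : X.card ≤ 2) :
    2 * (L col l (insert j S)).card + (E col A S).card + X.card ≤
      2 * (L col l S).card + (E col A (insert j S)).card + 3 := by
  have c1 := (clique col l A h1 h2 j).trans card_image_le
  have c2 := (ch (L col l {j}).card).1
  have c3 : L col l (insert j S) = L col l S ∪ L col l {j} := by
    ext x
    simp only [L, mem_image, mem_filter, mem_univ, true_and, mem_insert, mem_union, mem_singleton]
    constructor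
    · rintro ⟨v, h | h, rfl⟩
      · exact Or.inr ⟨v, h, rfl⟩
      · exact Or.inl ⟨v, h, rfl⟩
    · rintro (⟨v, h, rfl⟩ | ⟨v, h, rfl⟩)
      · exact ⟨v, Or.inr h, rfl⟩
      · exact ⟨v, Or.inl h, rfl⟩
  have c4 := card_union_add_card_inter (L col l S) (L col l {j})
  have d1 : Disjoint (E col A S) (E col A {j}) := by
    rw [disjoint_left]
    intro e he he'
    induction e using Sym2.ind with
    | _ x y =>
      have a := (mem_filter.mp he).2 x (by simp)
      have b := (mem_filter.mp he').2 x (by simp)
      rw [mem_singleton] at b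
      exact hj (b ▸ a)
  have s1 : E col A S ∪ E col A {j} ⊆ E col A (insert j S) := by
    intro e he
    rcases mem_union.mp he with he | he
    · exact mem_filter.mpr ⟨(mem_filter.mp he).1, fun v hv =>
        mem_insert_of_mem ((mem_filter.mp he).2 v hv)⟩
    · exact mem_filter.mpr ⟨(mem_filter.mp he).1, fun v hv =>
        mem_insert.mpr (Or.inl (mem_singleton.mp ((mem_filter.mp he).2 v hv)))⟩
  rw [c3]
  by_cases h : (L col l S ∩ L col l {j}).Nonempty
  · have := card_pos.mpr h
    have := card_le_card s1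
    rw [card_union_of_disjoint d1] at this
    omega
  · have d2 : Disjoint (E col A S ∪ E col A {j}) X := by
      rw [disjoint_left]
      intro e he he'
      obtain ⟨a, b, rfl, ha, hb, -⟩ := hX e he'
      rcases mem_union.mp he with he | he
      · exact hj (hb ▸ (mem_filter.mp he).2 b (by simp))
      · exact hj (mem_singleton.mp ((mem_filter.mp he).2 a (by simp)) ▸ ha)
    have s2 : X ⊆ E col A (insert j S) := by
      intro e he
      obtain ⟨a, b, rfl, ha, hb, hab⟩ := hX e he
      refine mem_filter.mpr ⟨h2 a b hab (fun e => h ⟨l a, mem_inter.mpr ⟨?_, ?_⟩⟩), ?_⟩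
      · exact mem_image.mpr ⟨a, by simp [ha], rfl⟩
      · exact mem_image.mpr ⟨b, by simp [hb], e.symm⟩
      · simp [ha, hb]
    have := card_le_card (union_subset s1 s2)
    rw [card_union_of_disjoint d2, card_union_of_disjoint d1] at this
    omega

include h1 h2 in
lemma grow [Nonempty V] {k : ℕ} (hG : EdgeConnected G (k + 1)) (m : ℕ)
    (hm : m + 1 ≤ (univ.image col).card) : ∃ S ⊆ univ.image col, S.card = m + 1 ∧
      2 * (L col l S).card ≤ (E col A S).card + 2 * (m + 1) + 1 := by
  induction m with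
  | zero =>
    obtain ⟨v⟩ := ‹Nonempty V›
    refine ⟨{col v}, by simp, by simp, ?_⟩
    have c1 := (clique col l A h1 h2 (col v)).trans card_image_le
    have c2 := (ch (L col l {col v}).card).1
    omega
  | succ m ih =>
    obtain ⟨S, hS, hc, hi⟩ := ih (by omega)
    obtain ⟨i, hi1⟩ : S.Nonempty := card_pos.mp (by omega)
    obtain ⟨j, hj1, hj2⟩ := exists_mem_notMem_of_card_lt_card (s := S) (t := univ.image col) (by omega)
    obtain ⟨u, -, rfl⟩ := mem_image.mp (hS hi1)
    obtain ⟨v, -, rfl⟩ := mem_image.mp hj1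
    obtain ⟨a, b, ha, hb, hab⟩ := cut1 hG {x | col x ∈ S} (u := u) (v := v) hi1 hj2
    have := step col l A h1 h2 S (col b) hb {s(a, b)}
      (fun e he => ⟨a, b, mem_singleton.mp he, ha, rfl, hab⟩) (by simp)
    refine ⟨insert (col b) S, insert_subset (by simp) hS, by rw [card_insert_of_notMem hb, hc], ?_⟩
    rw [card_singleton] at this
    omega

end

theorem result (V : Type) [Fintype V] [Nonempty V] (G : SimpleGraph V) (lam : ℕ)
    (hlam : lam = 1 ∨ lam = 2) (hG : EdgeConnected G lam)
    (h3 : ¬ Nonempty (G ≃g SimpleGraph.cycleGraph 3)) (k : ℕ) (hk : Gᶜ.chromaticNumber = k)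
    (A : Finset (Sym2 V)) (hA : (A : Set (Sym2 V)) ⊆ G.edgeSet) :
    2 * (Nat.card (G.deleteEdges A).ConnectedComponent : ℤ) - A.card - 1 ≤ 2 * k - lam + 1 := by
  classical
  obtain ⟨C⟩ : Gᶜ.Colorable k := SimpleGraph.chromaticNumber_le_iff_colorable.mp hk.le
  obtain ⟨l, hl⟩ : ∃ l : V → (G.deleteEdges A).ConnectedComponent,
      l = (G.deleteEdges A).connectedComponentMk := ⟨_, rfl⟩
  have h1 : ∀ u v, u ≠ v → C u = C v → G.Adj u v := by
    intro u v huv e
    by_contra h
    exact C.valid (show Gᶜ.Adj u v from ⟨huv, h⟩) e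
  have h2 : ∀ u v, G.Adj u v → l u ≠ l v → s(u, v) ∈ A := by
    intro u v huv hne
    by_contra h
    apply hne
    rw [hl]
    exact SimpleGraph.ConnectedComponent.connectedComponentMk_eq_of_adj (by simp [huv, h])
  have hL : Nat.card (G.deleteEdges A).ConnectedComponent = (L C l (univ.image C)).card := by
    rw [Nat.card_eq_fintype_card, ← card_univ]
    congr 1
    ext x
    simp only [L, mem_univ, mem_image, mem_filter, true_and, true_iff]
    induction x using SimpleGraph.ConnectedComponent.ind with
    | _ v => exact ⟨v, ⟨v, rfl⟩, by rw [hl]⟩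
  have hE : ∀ S, (E C A S).card ≤ A.card := fun S => card_filter_le _ _
  have hU : (univ.image C).card ≤ k := by simpa using card_le_univ (univ.image C)
  have hU0 : 0 < (univ.image C).card := card_pos.mpr (by simp)
  rw [hL]
  rcases hlam with rfl | rfl
  · obtain ⟨S, hS, hc, hi⟩ := grow C l A h1 h2 hG ((univ.image C).card - 1) (by omega)
    have := eq_of_subset_of_card_le hS (by omega)
    subst this
    have := hE (univ.image C)
    omega
  · by_cases h : 2 ≤ (univ.image C).card
    · obtain ⟨S, hS, hc, hi⟩ := grow C l A h1 h2 hG ((univ.image C).card - 2) (by omega)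
      obtain ⟨i, hi1⟩ : S.Nonempty := card_pos.mp (by omega)
      obtain ⟨j, hj1, hj2⟩ :=
        exists_mem_notMem_of_card_lt_card (s := S) (t := univ.image C) (by omega)
      have hins : insert j S = univ.image C := eq_of_subset_of_card_le (insert_subset hj1 hS)
        (by rw [card_insert_of_notMem hj2]; omega)
      have hout : ∀ b, C b ∉ S → C b = j := fun b hb => by
        have : C b ∈ insert j S := by rw [hins]; simp
        exact (mem_insert.mp this).resolve_right hb
      obtain ⟨u, -, rfl⟩ := mem_image.mp (hS hi1)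
      obtain ⟨v, -, hv⟩ := mem_image.mp hj1
      obtain ⟨a, b, a', b', ha, hb, hab, ha', hb', hab', hne⟩ :=
        cut2 hG {x | C x ∈ S} (u := u) (v := v) hi1 (show C v ∉ S from hv ▸ hj2)
      have := step C l A h1 h2 S j hj2 {s(a, b), s(a', b')} (fun e he => by
        rcases mem_insert.mp he with he | he
        · exact ⟨a, b, he, ha, hout b hb, hab⟩
        · exact ⟨a', b', mem_singleton.mp he, ha', hout b' hb', hab'⟩) card_le_two
      rw [card_pair hne, hins] at this
      have := hE (univ.image C)
      omega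
    · obtain ⟨j, hj⟩ := card_eq_one.mp (show (univ.image C).card = 1 by omega)
      have hc : ∀ v, C v = j := fun v => by
        have : C v ∈ univ.image C := by simp
        rw [hj] at this
        exact mem_singleton.mp this
      have hadj : ∀ u v, u ≠ v → G.Adj u v := fun u v h => h1 u v h ((hc u).trans (hc v).symm)
      rw [hj]
      have c1 := clique C l A h1 h2 j
      have c2 := ch (L C l {j}).card
      have c3 := hE {j}
      have c4 : ((E C A {j}).image (Sym2.map l)).card ≤ (E C A {j}).card := card_image_le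
      by_cases ht : (L C l {j}).card = 2 ∨ (L C l {j}).card = 3
      · have e1 : L C l {j} = univ.image l := by simp [L, hc]
        have n1 : (L C l {j}).card ≤ Fintype.card V := by
          rw [e1]; exact card_image_le
        have n3 : Fintype.card V ≠ 3 := by
          intro e
          apply h3
          have : G = ⊤ := by
            ext u v
            exact ⟨fun h => h.ne, fun h => hadj u v h⟩
          rw [this, SimpleGraph.cycleGraph_three_eq_top]
          exact ⟨SimpleGraph.Iso.completeGraph (Fintype.equivFinOfCardEq e)⟩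
        have n2 : 2 < Fintype.card V := by
          obtain ⟨u, v, huv⟩ := Fintype.exists_pair_of_one_lt_card (α := V) (by omega)
          obtain ⟨a, b, a', b', ha, hb, -, ha', hb', -, hne⟩ :=
            cut2 hG {u} (u := u) (v := v) rfl huv.symm
          rw [Set.mem_singleton_iff] at ha hb ha' hb'
          subst ha ha'
          exact Fintype.two_lt_card_iff.mpr ⟨_, b, b', Ne.symm hb, Ne.symm hb',
            fun e => hne (by rw [e])⟩
        obtain ⟨x, -, y, -, hxy, hl2⟩ := exists_ne_map_eq_of_card_lt_of_maps_to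
          (s := univ) (t := L C l {j}) (f := l) (by rw [card_univ]; omega)
          (fun v _ => by rw [e1]; simp)
        obtain ⟨w, hw1, hw2⟩ := exists_mem_ne (s := L C l {j}) (by omega) (l x)
        rw [e1] at hw1
        obtain ⟨z, -, rfl⟩ := mem_image.mp hw1
        have m1 : ∀ a, l a = l x → s(a, z) ∈ E C A {j} := fun a ha =>
          mem_filter.mpr ⟨h2 a z (hadj a z (fun e => hw2 (e ▸ ha))) (fun e => hw2 (e ▸ ha)),
            fun v _ => by simp [hc]⟩
        have c5 : ((E C A {j}).image (Sym2.map l)).card ≠ (E C A {j}).card := by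
          intro e
          have := card_image_iff.mp e (m1 x rfl) (m1 y hl2.symm) (by simp [hl2])
          exact hxy (Sym2.congr_left.mp this)
        omega
      · omega

end Pool.Agent.Results.MP_efdca5_co.Decay
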